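import Pool.Agent.H457.GenPAUK
import Pool.Agent.H255R2.GEN.CEN
import Pool.Agent.Helper467.FP.P_ep
import Pool.Agent.Helper467.FP.P_n2_mul_le

/-! Task AVG of ROOM GEN, BLOCK 2 (helper401): one element averaged by a finite system.
(One-pair halving of helper514.) -/

set_option autoImplicit false

noncomputable section

namespace Pool.Agent.H270G.T_AVG

open Pool.Agent.H467F Pool.Agent.H735G Pool.Agent.H270G
open Pool.Agent.H270G.T_PAUK (S_HALF S_REL)

/-- statement of DIX -/
def S_DIX : Prop := ∀ (A : Type) [CStarAlgebra A] (τ : A →ₗ[ℂ] ℂ), TW τ →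
    ∀ (Y T : A) (δ : ℝ), 0 < δ →
    ∃ w : unitary A, (τ (star (w : A) * Y * (w : A) * T)).re ≤ (τ (EZ τ Y * T)).re + δ

variable {A : Type} [CStarAlgebra A] {τ : A →ₗ[ℂ] ℂ}

/-- average over one pair -/
def ph (s t x : A) : A :=
  (4⁻¹ : ℂ) • (x + s * x * s + t * x * t + (s * t) * x * (t * s))

/-- an anticommuting pair of symmetries -/
structure Pr (s t : A) : Prop where
  ss : star s = s
  s1 : s * s = 1
  ts : star t = t
  t1 : t * t = 1
  anti : s * t = -(t * s)

/-- compression and doubling -/
def dd (e t x : A) : A := e * x * e + t * (e * x * e) * t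

def pp (s : A) : A := (2⁻¹ : ℂ) • (1 + s)
def qq (s : A) : A := (2⁻¹ : ℂ) • (1 - s)

section alg

variable {s t : A}

theorem pp_star (h : Pr s t) : star (pp s) = pp s := by
  unfold pp
  rw [star_smul, star_add, star_one, h.ss]
  congr 1
  simp

theorem qq_star (h : Pr s t) : star (qq s) = qq s := by
  unfold qq
  rw [star_smul, star_sub, star_one, h.ss]
  congr 1
  simp

theorem pp_add_qq : pp s + qq s = 1 := by
  unfold pp qq
  module

theorem pp_mul_pp (h : Pr s t) : pp s * pp s = pp s := by
  unfold pp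
  rw [smul_mul_smul_comm, add_mul, mul_add, mul_add, h.s1, one_mul, mul_one, one_mul]
  module

theorem qq_mul_qq (h : Pr s t) : qq s * qq s = qq s := by
  unfold qq
  rw [smul_mul_smul_comm, sub_mul, mul_sub, mul_sub, h.s1, one_mul, mul_one, one_mul]
  module

theorem pp_mul_qq (h : Pr s t) : pp s * qq s = 0 := by
  unfold pp qq
  rw [smul_mul_smul_comm, add_mul, mul_sub, mul_sub, h.s1, one_mul, mul_one, one_mul]
  module

theorem qq_mul_pp (h : Pr s t) : qq s * pp s = 0 := by
  unfold pp qq
  rw [smul_mul_smul_comm, sub_mul, mul_add, mul_add, h.s1, one_mul, mul_one, one_mul]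
  module

theorem ts_eq (h : Pr s t) : t * s = -(s * t) := by rw [h.anti, neg_neg]

theorem t_pp (h : Pr s t) : t * pp s = qq s * t := by
  unfold pp qq
  rw [mul_smul_comm, smul_mul_assoc, mul_add, sub_mul, ts_eq h, mul_one, one_mul, sub_eq_add_neg]

theorem t_qq (h : Pr s t) : t * qq s = pp s * t := by
  unfold pp qq
  rw [mul_smul_comm, smul_mul_assoc, mul_sub, add_mul, ts_eq h, mul_one, one_mul, sub_neg_eq_add]

theorem s_pp (h : Pr s t) : s * pp s = pp s := by
  unfold pp
  rw [mul_smul_comm, mul_add, mul_one, h.s1, add_comm]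

theorem pp_s (h : Pr s t) : pp s * s = pp s := by
  unfold pp
  rw [smul_mul_assoc, add_mul, one_mul, h.s1, add_comm]

theorem s_qq (h : Pr s t) : s * qq s = -qq s := by
  unfold qq
  rw [mul_smul_comm, mul_sub, mul_one, h.s1]
  module

theorem qq_s (h : Pr s t) : qq s * s = -qq s := by
  unfold qq
  rw [smul_mul_assoc, sub_mul, one_mul, h.s1]
  module

theorem ph_eq (h : Pr s t) (x : A) :
    ph s t x = (2⁻¹ : ℂ) • (dd (pp s) t x + dd (qq s) t x) := by
  have h1 : (s * t) * x * (t * s) = t * (s * x * s) * t := by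
    calc (s * t) * x * (t * s) = (-(t * s)) * x * (t * s) := by rw [h.anti]
      _ = (-(t * s)) * x * (-(s * t)) := by rw [← ts_eq h]
      _ = t * (s * x * s) * t := by noncomm_ring
  have h2 : pp s * x * pp s + qq s * x * qq s = (2⁻¹ : ℂ) • (x + s * x * s) := by
    unfold pp qq
    simp only [smul_mul_assoc, mul_smul_comm, mul_add, add_mul, mul_sub, sub_mul,
      mul_one, one_mul]
    module
  unfold ph dd
  rw [h1]
  have h3 : pp s * x * pp s + t * (pp s * x * pp s) * t + (qq s * x * qq s +
      t * (qq s * x * qq s) * t) = (pp s * x * pp s + qq s * x * qq s) +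
      t * (pp s * x * pp s + qq s * x * qq s) * t := by
    noncomm_ring
  rw [h3, h2]
  simp only [smul_mul_assoc, mul_smul_comm, mul_add, add_mul]
  module

theorem dd_comm_pp (h : Pr s t) (x : A) :
    s * dd (pp s) t x = dd (pp s) t x * s ∧ t * dd (pp s) t x = dd (pp s) t x * t := by
  have a1 := s_pp h
  have a2 := pp_s h
  have h1 : s * t = -(t * s) := h.anti
  have h2 : t * s = -(s * t) := ts_eq h
  constructor
  · unfold dd
    have e1 : s * (pp s * x * pp s + t * (pp s * x * pp s) * t) =
        (s * pp s) * x * pp s + (s * t) * (pp s * x * pp s) * t := by noncomm_ring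
    have e2 : (pp s * x * pp s + t * (pp s * x * pp s) * t) * s =
        pp s * x * (pp s * s) + t * (pp s * x * pp s) * (t * s) := by noncomm_ring
    have e3 : (s * t) * (pp s * x * pp s) * t = -(t * ((s * pp s) * x * pp s) * t) := by
      rw [h1]; noncomm_ring
    have e4 : t * (pp s * x * pp s) * (t * s) = -(t * (pp s * x * (pp s * s)) * t) := by
      rw [h2]; noncomm_ring
    rw [e1, e2, e3, e4, a1, a2]
  · unfold dd
    have e1 : t * (pp s * x * pp s + t * (pp s * x * pp s) * t) =
        t * (pp s * x * pp s) + (t * t) * (pp s * x * pp s) * t := by noncomm_ring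
    have e2 : (pp s * x * pp s + t * (pp s * x * pp s) * t) * t =
        (pp s * x * pp s) * t + t * (pp s * x * pp s) * (t * t) := by noncomm_ring
    rw [e1, e2, h.t1, one_mul, mul_one, add_comm]

theorem dd_comm_qq (h : Pr s t) (x : A) :
    s * dd (qq s) t x = dd (qq s) t x * s ∧ t * dd (qq s) t x = dd (qq s) t x * t := by
  have a1 := s_qq h
  have a2 := qq_s h
  have h1 : s * t = -(t * s) := h.anti
  have h2 : t * s = -(s * t) := ts_eq h
  constructor
  · unfold dd
    have e1 : s * (qq s * x * qq s + t * (qq s * x * qq s) * t) =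
        (s * qq s) * x * qq s + (s * t) * (qq s * x * qq s) * t := by noncomm_ring
    have e2 : (qq s * x * qq s + t * (qq s * x * qq s) * t) * s =
        qq s * x * (qq s * s) + t * (qq s * x * qq s) * (t * s) := by noncomm_ring
    have e3 : (s * t) * (qq s * x * qq s) * t = -(t * ((s * qq s) * x * qq s) * t) := by
      rw [h1]; noncomm_ring
    have e4 : t * (qq s * x * qq s) * (t * s) = -(t * (qq s * x * (qq s * s)) * t) := by
      rw [h2]; noncomm_ring
    rw [e1, e2, e3, e4, a1, a2]
    noncomm_ring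
  · unfold dd
    have e1 : t * (qq s * x * qq s + t * (qq s * x * qq s) * t) =
        t * (qq s * x * qq s) + (t * t) * (qq s * x * qq s) * t := by noncomm_ring
    have e2 : (qq s * x * qq s + t * (qq s * x * qq s) * t) * t =
        (qq s * x * qq s) * t + t * (qq s * x * qq s) * (t * t) := by noncomm_ring
    rw [e1, e2, h.t1, one_mul, mul_one, add_comm]

/-- compression of a conjugate by `p + q y` -/
theorem dd_conj (h : Pr s t) (y : A) (hs : s * y = y * s) (ht : t * y = y * t)
    (hys : s * star y = star y * s) (hyt : t * star y = star y * t) (x : A) :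
    dd (pp s) t ((pp s + qq s * y) * x * (pp s + star y * qq s)) = dd (pp s) t x ∧
    dd (qq s) t ((pp s + qq s * y) * x * (pp s + star y * qq s)) =
      y * dd (qq s) t x * star y := by
  have hp1 := pp_mul_pp h
  have hq1 := qq_mul_qq h
  have hpq := pp_mul_qq h
  have hqp := qq_mul_pp h
  have hqy : qq s * y = y * qq s := by
    unfold qq
    rw [smul_mul_assoc, mul_smul_comm, sub_mul, mul_sub, hs, one_mul, mul_one]
  have hqy' : qq s * star y = star y * qq s := by
    unfold qq
    rw [smul_mul_assoc, mul_smul_comm, sub_mul, mul_sub, hys, one_mul, mul_one]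
  have hpy' : star y * qq s * pp s = 0 := by rw [mul_assoc, hqp, mul_zero]
  constructor
  · have e1 : pp s * ((pp s + qq s * y) * x * (pp s + star y * qq s)) * pp s =
        pp s * x * pp s := by
      have e2 : pp s * ((pp s + qq s * y) * x * (pp s + star y * qq s)) * pp s =
        (pp s * pp s + (pp s * qq s) * y) * x * (pp s * pp s + star y * qq s * pp s) := by
        noncomm_ring
      rw [e2, hp1, hpq, hpy', zero_mul, add_zero]
    unfold dd
    rw [e1]
  · have e1 : qq s * ((pp s + qq s * y) * x * (pp s + star y * qq s)) * qq s =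
        y * (qq s * x * qq s) * star y := by
      have e2 : qq s * ((pp s + qq s * y) * x * (pp s + star y * qq s)) * qq s =
        (qq s * pp s + (qq s * qq s) * y) * x * (pp s * qq s + star y * (qq s * qq s)) := by
        noncomm_ring
      rw [e2, hq1, hqp, hpq, zero_add, zero_add, hqy, ← hqy']
      noncomm_ring
    unfold dd
    rw [e1]
    have e3 : t * (y * (qq s * x * qq s) * star y) * t =
        (t * y) * (qq s * x * qq s) * (star y * t) := by noncomm_ring
    rw [e3, ht, ← hyt]
    noncomm_ring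

end alg

section norms

variable {s t : A}

theorem n2_add_sq (h : TW τ) (a b : A) :
    n2 τ (a + b) ^ 2 = n2 τ a ^ 2 + n2 τ b ^ 2 + 2 * (τ (star a * b)).re := by
  rw [h.n2_sq, h.n2_sq, h.n2_sq]
  have e : star (a + b) * (a + b) = star a * a + star b * b + (star a * b + star b * a) := by
    rw [star_add]; noncomm_ring
  have e2 : τ (star b * a) = star (τ (star a * b)) := by
    rw [← h.conj, star_mul, star_star]
  rw [e, map_add, map_add, map_add, e2]
  simp only [Complex.add_re, Complex.star_def, Complex.conj_re]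
  ring

theorem n2_unitary (h : TW τ) (y x : A) (h1 : star y * y = 1) :
    n2 τ (y * x * star y) = n2 τ x := by
  unfold n2
  have e : star (y * x * star y) * (y * x * star y) = y * (star x * x) * star y := by
    rw [star_mul, star_mul, star_star]
    calc y * (star x * star y) * (y * x * star y)
        = y * star x * (star y * y) * x * star y := by noncomm_ring
      _ = _ := by rw [h1]; noncomm_ring
  rw [e, h.comm, ← mul_assoc, h1, one_mul]

theorem n2_dd (h : TW τ) (hp : Pr s t) (e x : A) (hete : e * t * e = 0) (he : star e = e) :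
    n2 τ (dd e t x) ^ 2 = 2 * n2 τ (e * x * e) ^ 2 := by
  unfold dd
  rw [n2_add_sq h]
  have h1 : n2 τ (t * (e * x * e) * t) = n2 τ (e * x * e) := by
    have := n2_unitary h t (e * x * e) (by rw [hp.ts, hp.t1])
    rwa [hp.ts] at this
  have h2 : star (e * x * e) * (t * (e * x * e) * t) = 0 := by
    rw [star_mul, star_mul, he]
    calc e * (star x * e) * (t * (e * x * e) * t) = e * star x * (e * t * e) * x * e * t := by
          noncomm_ring
      _ = 0 := by rw [hete]; noncomm_ring
  rw [h1, h2, map_zero, Complex.zero_re]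
  ring

theorem n2_exf (h : TW τ) (e f x : A) (he : star e = e) (hf : star f = f) (he2 : e * e = e)
    (hf2 : f * f = f) : n2 τ (e * x * f) ^ 2 = (τ (star x * e * x * f)).re := by
  rw [h.n2_sq]
  have e1 : star (e * x * f) * (e * x * f) = f * (star x * e * x * f) := by
    rw [star_mul, star_mul, he, hf]
    calc f * (star x * e) * (e * x * f) = f * (star x * (e * e) * x * f) := by noncomm_ring
      _ = _ := by rw [he2]
  rw [e1, h.comm]
  have e2 : star x * e * x * f * f = star x * e * x * f := by rw [mul_assoc, hf2]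
  rw [e2]

theorem comp_sum (h : TW τ) (hp : Pr s t) (x : A) :
    n2 τ (pp s * x * pp s) ^ 2 + n2 τ (qq s * x * qq s) ^ 2 ≤ n2 τ x ^ 2 := by
  have h1 := n2_exf h (pp s) (pp s) x (pp_star hp) (pp_star hp) (pp_mul_pp hp) (pp_mul_pp hp)
  have h2 := n2_exf h (pp s) (qq s) x (pp_star hp) (qq_star hp) (pp_mul_pp hp) (qq_mul_qq hp)
  have h3 := n2_exf h (qq s) (pp s) x (qq_star hp) (pp_star hp) (qq_mul_qq hp) (pp_mul_pp hp)
  have h4 := n2_exf h (qq s) (qq s) x (qq_star hp) (qq_star hp) (qq_mul_qq hp) (qq_mul_qq hp)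
  have h5 : star x * x = star x * pp s * x * pp s + star x * pp s * x * qq s +
      star x * qq s * x * pp s + star x * qq s * x * qq s := by
    have : star x * pp s * x * pp s + star x * pp s * x * qq s +
      star x * qq s * x * pp s + star x * qq s * x * qq s =
      star x * (pp s + qq s) * x * (pp s + qq s) := by noncomm_ring
    rw [this, pp_add_qq, mul_one, mul_one]
  rw [h.n2_sq x, h5, map_add, map_add, map_add, Complex.add_re, Complex.add_re, Complex.add_re,
    ← h1, ← h2, ← h3, ← h4]
  nlinarith [sq_nonneg (n2 τ (pp s * x * qq s)), sq_nonneg (n2 τ (qq s * x * pp s))]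

theorem pp_t_pp (hp : Pr s t) : pp s * t * pp s = 0 := by
  rw [mul_assoc, t_pp hp, ← mul_assoc, pp_mul_qq hp, zero_mul]

theorem qq_t_qq (hp : Pr s t) : qq s * t * qq s = 0 := by
  rw [mul_assoc, t_qq hp, ← mul_assoc, qq_mul_pp hp, zero_mul]

theorem dd_norms (h : TW τ) (hp : Pr s t) (x : A) :
    n2 τ (dd (pp s) t x) ^ 2 + n2 τ (dd (qq s) t x) ^ 2 ≤ 2 * n2 τ x ^ 2 := by
  rw [n2_dd h hp _ x (pp_t_pp hp) (pp_star hp), n2_dd h hp _ x (qq_t_qq hp) (qq_star hp)]
  have := comp_sum h hp x
  linarith

theorem ez_sub_le (h : TW τ) (hE : EZP τ) (x : A) : n2 τ (x - EZ τ x) ^ 2 ≤ n2 τ x ^ 2 := by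
  have := (ep h (Zc A) hE.isW).pyth x
  unfold EZ
  nlinarith [sq_nonneg (n2 τ (E τ (Zc A) x))]

theorem ez_conj_sym (hE : EZP τ) (s x : A) (hs : s * s = 1) : EZ τ (s * x * s) = EZ τ x := by
  rw [hE.cyc (s * x) s, ← mul_assoc, hs, one_mul]

theorem ez_ph (hE : EZP τ) (hp : Pr s t) (x : A) : EZ τ (ph s t x) = EZ τ x := by
  unfold ph
  have h1 := ez_conj_sym hE s x hp.s1
  have h2 := ez_conj_sym hE t x hp.t1
  have h3 : EZ τ ((s * t) * x * (t * s)) = EZ τ x := by
    have : (s * t) * x * (t * s) = s * (t * x * t) * s := by noncomm_ring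
    rw [this, ez_conj_sym hE s _ hp.s1, h2]
  rw [hE.smul, hE.add, hE.add, hE.add, h1, h2, h3]
  module

theorem ph_central (hp : Pr s t) (c : A) (hc : ∀ a, c * a = a * c) : ph s t c = c := by
  unfold ph
  have h1 : s * c * s = c := by rw [← hc, mul_assoc, hp.s1, mul_one]
  have h2 : t * c * t = c := by rw [← hc, mul_assoc, hp.t1, mul_one]
  have h3 : (s * t) * c * (t * s) = c := by
    have : (s * t) * c * (t * s) = s * (t * c * t) * s := by noncomm_ring
    rw [this, h2, h1]
  rw [h1, h2, h3]
  module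

theorem ph_sub (s t x y : A) : ph s t (x - y) = ph s t x - ph s t y := by
  unfold ph
  rw [← smul_sub]
  congr 1
  noncomm_ring

/-- conjugating the pair -/
theorem ph_conj (s t Y x : A) (h1 : star Y * Y = 1) (h2 : Y * star Y = 1) :
    ph (star Y * s * Y) (star Y * t * Y) x = star Y * ph s t (Y * x * star Y) * Y := by
  have e1 : star Y * s * Y * x * (star Y * s * Y) = star Y * (s * (Y * x * star Y) * s) * Y := by
    noncomm_ring
  have e2 : star Y * t * Y * x * (star Y * t * Y) = star Y * (t * (Y * x * star Y) * t) * Y := by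
    noncomm_ring
  have e3 : star Y * s * Y * (star Y * t * Y) * x * (star Y * t * Y * (star Y * s * Y)) =
      star Y * ((s * t) * (Y * x * star Y) * (t * s)) * Y := by
    calc _ = star Y * s * (Y * star Y) * t * Y * x * star Y * t * (Y * star Y) * s * Y := by
          noncomm_ring
      _ = _ := by rw [h2]; noncomm_ring
  have e4 : x = star Y * (Y * x * star Y) * Y := by
    calc x = (star Y * Y) * x * (star Y * Y) := by rw [h1, one_mul, mul_one]
      _ = _ := by noncomm_ring
  unfold ph
  rw [e1, e2, e3, mul_smul_comm, smul_mul_assoc]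
  congr 1
  calc x + star Y * (s * (Y * x * star Y) * s) * Y + star Y * (t * (Y * x * star Y) * t) * Y +
        star Y * ((s * t) * (Y * x * star Y) * (t * s)) * Y
      = star Y * (Y * x * star Y) * Y + star Y * (s * (Y * x * star Y) * s) * Y +
        star Y * (t * (Y * x * star Y) * t) * Y +
        star Y * ((s * t) * (Y * x * star Y) * (t * s)) * Y := by rw [← e4]
    _ = _ := by noncomm_ring

theorem pr_conj (hp : Pr s t) (Y : A) (h1 : star Y * Y = 1) (h2 : Y * star Y = 1) :
    Pr (star Y * s * Y) (star Y * t * Y) where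
  ss := by rw [star_mul, star_mul, star_star, hp.ss, mul_assoc]
  s1 := by
    calc star Y * s * Y * (star Y * s * Y) = star Y * s * (Y * star Y) * s * Y := by noncomm_ring
      _ = star Y * (s * s) * Y := by rw [h2]; noncomm_ring
      _ = 1 := by rw [hp.s1, mul_one, h1]
  ts := by rw [star_mul, star_mul, star_star, hp.ts, mul_assoc]
  t1 := by
    calc star Y * t * Y * (star Y * t * Y) = star Y * t * (Y * star Y) * t * Y := by noncomm_ring
      _ = star Y * (t * t) * Y := by rw [h2]; noncomm_ring
      _ = 1 := by rw [hp.t1, mul_one, h1]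
  anti := by
    calc star Y * s * Y * (star Y * t * Y) = star Y * s * (Y * star Y) * t * Y := by noncomm_ring
      _ = star Y * (s * t) * Y := by rw [h2]; noncomm_ring
      _ = -(star Y * (t * s) * Y) := by rw [hp.anti]; noncomm_ring
      _ = -(star Y * t * (Y * star Y) * s * Y) := by rw [h2]; noncomm_ring
      _ = _ := by noncomm_ring

end norms

/-- the one-pair system -/
theorem pauK_one {s t : A} (hp : Pr s t) : PauK (fun _ => s) (fun _ => t) 1 where
  ss := fun _ _ => hp.ss
  s1 := fun _ _ => hp.s1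
  ts := fun _ _ => hp.ts
  t1 := fun _ _ => hp.t1
  anti := fun _ _ => hp.anti
  css := fun _ _ _ _ => rfl
  ctt := fun _ _ _ _ => rfl
  cst := fun j hj k hk hjk => by omega

/-- ONE STEP: one pair halves the squared distance -/
theorem one_pair (hHALF : S_HALF) (hREL : S_REL) (hDIX : S_DIX) (h : TW τ) (hA : NoAbA A)
    (x : A) (δ : ℝ) (hδ : 0 < δ) :
    ∃ s t : A, Pr s t ∧
      n2 τ (ph s t x - EZ τ x) ^ 2 ≤ (1 / 2) * n2 τ (x - EZ τ x) ^ 2 + δ := by
  obtain ⟨s, t, a1, a2, a3, a4, a5⟩ := hHALF A τ h hA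
  have hp : Pr s t := ⟨a1, a2, a3, a4, a5⟩
  have hE : EZP τ := T_CEN.ezp h
  obtain ⟨B, _, ι, σ, hσ, hB, hinj, hnorm, htr, hsurj, hcomm, hez⟩ :=
    hREL A τ h hA (fun _ => s) (fun _ => t) 1 (pauK_one hp)
  have hEB : EZP σ := T_CEN.ezp hσ
  set X := x - EZ τ x with hX
  have hEX : EZ τ X = 0 := by
    rw [hX, hE.sub, hE.of_mem (EZ τ x) (fun y => hE.comm x y), sub_self]
  obtain ⟨b1, hb1⟩ := hsurj (dd (pp s) t X) (fun j _ => dd_comm_pp hp X)
  obtain ⟨b2, hb2⟩ := hsurj (dd (qq s) t X) (fun j _ => dd_comm_qq hp X)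
  set z1 := b1 - EZ σ b1 with hz1
  set z2 := b2 - EZ σ b2 with hz2
  have hEz2 : EZ σ z2 = 0 := by
    rw [hz2, hEB.sub, hEB.of_mem (EZ σ b2) (fun y => hEB.comm b2 y), sub_self]
  obtain ⟨w, hw⟩ := hDIX B σ hσ z2 (star z1) δ hδ
  rw [hEz2, zero_mul, map_zero, Complex.zero_re, zero_add] at hw
  have hww : star (w : B) * w = 1 := Unitary.coe_star_mul_self w
  have hww' : (w : B) * star (w : B) = 1 := Unitary.coe_mul_star_self w
  set y : A := ι (star (w : B)) with hy
  have hsy : star y = ι (w : B) := by rw [hy, map_star, star_star]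
  have hyy : star y * y = 1 := by rw [hsy, hy, ← map_mul, hww', map_one]
  have hyy' : y * star y = 1 := by rw [hsy, hy, ← map_mul, hww, map_one]
  have c1 : s * y = y * s := (hcomm (star (w : B)) 0 Nat.one_pos).1
  have c2 : t * y = y * t := (hcomm (star (w : B)) 0 Nat.one_pos).2
  have c3 : s * star y = star y * s := by rw [hsy]; exact (hcomm (w : B) 0 Nat.one_pos).1
  have c4 : t * star y = star y * t := by rw [hsy]; exact (hcomm (w : B) 0 Nat.one_pos).2
  set Y : A := pp s + qq s * y with hY
  have hqy : qq s * y = y * qq s := by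
    unfold qq
    rw [smul_mul_assoc, mul_smul_comm, sub_mul, mul_sub, c1, one_mul, mul_one]
  have hqy' : qq s * star y = star y * qq s := by
    unfold qq
    rw [smul_mul_assoc, mul_smul_comm, sub_mul, mul_sub, c3, one_mul, mul_one]
  have hsY : star Y = pp s + star y * qq s := by
    rw [hY, star_add, star_mul, pp_star hp, qq_star hp]
  have hYY : star Y * Y = 1 := by
    rw [hsY, hY]
    calc (pp s + star y * qq s) * (pp s + qq s * y)
        = pp s * pp s + (pp s * qq s) * y + star y * (qq s * pp s) +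
          star y * (qq s * qq s) * y := by noncomm_ring
      _ = pp s + star y * qq s * y := by
          rw [pp_mul_pp hp, pp_mul_qq hp, qq_mul_pp hp, qq_mul_qq hp]; noncomm_ring
      _ = pp s + star y * y * qq s := by rw [mul_assoc, hqy, ← mul_assoc]
      _ = 1 := by rw [hyy, one_mul, pp_add_qq]
  have hYY' : Y * star Y = 1 := by
    rw [hsY, hY]
    calc (pp s + qq s * y) * (pp s + star y * qq s)
        = pp s * pp s + pp s * (star y * qq s) + (qq s * y) * pp s +
          qq s * (y * star y) * qq s := by noncomm_ring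
      _ = pp s * pp s + pp s * (qq s * star y) + (y * qq s) * pp s +
          qq s * qq s := by rw [hyy', mul_one, hqy, hqy']
      _ = pp s * pp s + (pp s * qq s) * star y + y * (qq s * pp s) + qq s * qq s := by
          noncomm_ring
      _ = 1 := by
          rw [pp_mul_pp hp, pp_mul_qq hp, qq_mul_pp hp, qq_mul_qq hp, zero_mul, mul_zero,
            add_zero, add_zero, pp_add_qq]
  -- the sum of the centre valued traces vanishes
  have hsum : EZ τ (dd (pp s) t X) + EZ τ (dd (qq s) t X) = 0 := by
    have e1 := ez_ph hE hp X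
    rw [ph_eq hp, hE.smul, hE.add, hEX] at e1
    have := smul_eq_zero.1 e1
    rcases this with h0 | h0
    · norm_num at h0
    · exact h0
  have hι1 : ι z1 = dd (pp s) t X - EZ τ (dd (pp s) t X) := by
    rw [hz1, map_sub, hez, hb1]
  have hι2 : ι z2 = dd (qq s) t X - EZ τ (dd (qq s) t X) := by
    rw [hz2, map_sub, hez, hb2]
  have hcen : y * EZ τ (dd (qq s) t X) * star y = EZ τ (dd (qq s) t X) := by
    rw [← hE.comm, mul_assoc, hyy', mul_one]
  have hPhi : ph s t (Y * X * star Y) = (2⁻¹ : ℂ) • (ι z1 + y * ι z2 * star y) := by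
    rw [ph_eq hp, hsY, hY]
    have e1 := dd_conj hp y c1 c2 c3 c4 X
    rw [e1.1, e1.2, hι1, hι2]
    congr 1
    calc dd (pp s) t X + y * dd (qq s) t X * star y
        = (dd (pp s) t X + y * dd (qq s) t X * star y) -
          (EZ τ (dd (pp s) t X) + EZ τ (dd (qq s) t X)) := by rw [hsum, sub_zero]
      _ = (dd (pp s) t X + y * dd (qq s) t X * star y) -
          (EZ τ (dd (pp s) t X) + y * EZ τ (dd (qq s) t X) * star y) := by rw [hcen]
      _ = _ := by noncomm_ring
  refine ⟨star Y * s * Y, star Y * t * Y, pr_conj hp Y hYY hYY', ?_⟩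
  have hpr := pr_conj hp Y hYY hYY'
  have e1 : ph (star Y * s * Y) (star Y * t * Y) x - EZ τ x =
      star Y * ph s t (Y * X * star Y) * Y := by
    rw [← ph_conj s t Y X hYY hYY', hX, ph_sub, ph_central hpr (EZ τ x) (fun a => hE.comm x a)]
  have e2 : n2 τ (star Y * ph s t (Y * X * star Y) * Y) = n2 τ (ph s t (Y * X * star Y)) := by
    have := n2_unitary h (star Y) (ph s t (Y * X * star Y)) (by rw [star_star, hYY'])
    rwa [star_star] at this
  rw [e1, e2, hPhi, n2_smul, mul_pow, n2_add_sq h]
  have e3 : n2 τ (y * ι z2 * star y) = n2 τ (ι z2) := n2_unitary h y (ι z2) hyy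
  have e4 : (τ (star (ι z1) * (y * ι z2 * star y))).re ≤ δ := by
    have : τ (star (ι z1) * (y * ι z2 * star y)) =
        σ (star (w : B) * z2 * (w : B) * star z1) := by
      rw [htr, h.comm, hsy, hy, ← map_star, ← map_mul, ← map_mul, ← map_mul]
    rw [this]
    exact hw
  have e5 : n2 τ (ι z1) ^ 2 ≤ n2 τ (dd (pp s) t X) ^ 2 := by
    rw [hι1]; exact ez_sub_le h hE _
  have e6 : n2 τ (ι z2) ^ 2 ≤ n2 τ (dd (qq s) t X) ^ 2 := by
    rw [hι2]; exact ez_sub_le h hE _
  have e7 := dd_norms h hp X
  have e8 : ‖(2⁻¹ : ℂ)‖ ^ 2 = 1 / 4 := by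
    rw [norm_inv, Complex.norm_ofNat]; norm_num
  rw [e3, e8]
  nlinarith

theorem av_one (s t : ℕ → A) (x : A) : av s t 1 x = ph (s 0) (t 0) x := rfl

theorem av_shift (s t : ℕ → A) (K : ℕ) (x : A) :
    av s t (K + 1) x = av (fun n => s (n + 1)) (fun n => t (n + 1)) K (ph (s 0) (t 0) x) := by
  induction K with
  | zero => rfl
  | succ K ih =>
    show (4⁻¹ : ℂ) • (av s t (K + 1) x + s (K + 1) * av s t (K + 1) x * s (K + 1) +
      t (K + 1) * av s t (K + 1) x * t (K + 1) +
      (s (K + 1) * t (K + 1)) * av s t (K + 1) x * (t (K + 1) * s (K + 1))) = _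
    rw [ih]
    rfl

theorem av_map {B : Type} [CStarAlgebra B] (ι : B →⋆ₐ[ℂ] A) (s t : ℕ → B) (K : ℕ) (b : B) :
    av (fun n => ι (s n)) (fun n => ι (t n)) K (ι b) = ι (av s t K b) := by
  induction K with
  | zero => rfl
  | succ K ih =>
    show (4⁻¹ : ℂ) • (av (fun n => ι (s n)) (fun n => ι (t n)) K (ι b) +
      ι (s K) * av (fun n => ι (s n)) (fun n => ι (t n)) K (ι b) * ι (s K) +
      ι (t K) * av (fun n => ι (s n)) (fun n => ι (t n)) K (ι b) * ι (t K) +
      (ι (s K) * ι (t K)) * av (fun n => ι (s n)) (fun n => ι (t n)) K (ι b) *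
        (ι (t K) * ι (s K))) = ι ((4⁻¹ : ℂ) • (av s t K b + s K * av s t K b * s K +
      t K * av s t K b * t K + (s K * t K) * av s t K b * (t K * s K)))
    rw [ih, map_smul, map_add, map_add, map_add, map_mul, map_mul, map_mul, map_mul, map_mul,
      map_mul, map_mul, map_mul]

theorem ph_comm {s t : A} (hp : Pr s t) (x : A) :
    s * ph s t x = ph s t x * s ∧ t * ph s t x = ph s t x * t := by
  have h1 := dd_comm_pp hp x
  have h2 := dd_comm_qq hp x
  rw [ph_eq hp]
  constructor
  · rw [mul_smul_comm, smul_mul_assoc, mul_add, add_mul, h1.1, h2.1]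
  · rw [mul_smul_comm, smul_mul_assoc, mul_add, add_mul, h1.2, h2.2]

theorem iter (hHALF : S_HALF) (hREL : S_REL) (hDIX : S_DIX) (K : ℕ) :
    ∀ (A : Type) [CStarAlgebra A] (τ : A →ₗ[ℂ] ℂ), TW τ → NoAbA A → ∀ (x : A) (δ : ℝ), 0 < δ →
    ∃ s t : ℕ → A, PauK s t K ∧
      n2 τ (av s t K x - EZ τ x) ^ 2 ≤ (1 / 2) ^ K * n2 τ (x - EZ τ x) ^ 2 + δ := by
  induction K with
  | zero =>
    intro A _ τ h hA x δ hδ
    refine ⟨fun _ => 1, fun _ => 1, ?_, ?_⟩
    · constructor <;> intro j hj <;> exact absurd hj (Nat.not_lt_zero j)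
    · show n2 τ (x - EZ τ x) ^ 2 ≤ _
      rw [pow_zero, one_mul]
      linarith
  | succ K ih =>
    intro A _ τ h hA x δ hδ
    have hE : EZP τ := T_CEN.ezp h
    obtain ⟨s0, t0, hp, hst⟩ := one_pair hHALF hREL hDIX h hA x (δ / 2) (by positivity)
    obtain ⟨B, _, ι, σ, hσ, hB, hinj, hnorm, htr, hsurj, hcomm, hez⟩ :=
      hREL A τ h hA (fun _ => s0) (fun _ => t0) 1 (pauK_one hp)
    obtain ⟨b, hb⟩ := hsurj (ph s0 t0 x) (fun j _ => ph_comm hp x)
    obtain ⟨s', t', hp', hst'⟩ := ih B σ hσ hB b (δ / 2) (by positivity)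
    have hn : ∀ c : B, n2 σ c = n2 τ (ι c) := by
      intro c
      unfold n2
      rw [← map_star, ← map_mul, ← htr]
    have hs0 : ∀ c : B, s0 * ι c = ι c * s0 := fun c => (hcomm c 0 Nat.one_pos).1
    have ht0 : ∀ c : B, t0 * ι c = ι c * t0 := fun c => (hcomm c 0 Nat.one_pos).2
    let s : ℕ → A := fun n => Nat.casesOn n s0 (fun m => ι (s' m))
    let t : ℕ → A := fun n => Nat.casesOn n t0 (fun m => ι (t' m))
    have es : ∀ m, s (m + 1) = ι (s' m) := fun m => rfl
    have et : ∀ m, t (m + 1) = ι (t' m) := fun m => rfl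
    have es0 : s 0 = s0 := rfl
    have et0 : t 0 = t0 := rfl
    refine ⟨s, t, ?_, ?_⟩
    · constructor
      · intro j hj
        cases j with
        | zero => rw [es0]; exact hp.ss
        | succ j => rw [es, ← map_star, hp'.ss j (by omega)]
      · intro j hj
        cases j with
        | zero => rw [es0]; exact hp.s1
        | succ j => rw [es, ← map_mul, hp'.s1 j (by omega), map_one]
      · intro j hj
        cases j with
        | zero => rw [et0]; exact hp.ts
        | succ j => rw [et, ← map_star, hp'.ts j (by omega)]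
      · intro j hj
        cases j with
        | zero => rw [et0]; exact hp.t1
        | succ j => rw [et, ← map_mul, hp'.t1 j (by omega), map_one]
      · intro j hj
        cases j with
        | zero => rw [es0, et0]; exact hp.anti
        | succ j => rw [es, et, ← map_mul, hp'.anti j (by omega), map_neg, map_mul]
      · intro j hj k hk
        cases j with
        | zero =>
          cases k with
          | zero => rfl
          | succ k => rw [es0, es]; exact hs0 _
        | succ j =>
          cases k with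
          | zero => rw [es0, es]; exact (hs0 _).symm
          | succ k => rw [es, es, ← map_mul, ← map_mul, hp'.css j (by omega) k (by omega)]
      · intro j hj k hk
        cases j with
        | zero =>
          cases k with
          | zero => rfl
          | succ k => rw [et0, et]; exact ht0 _
        | succ j =>
          cases k with
          | zero => rw [et0, et]; exact (ht0 _).symm
          | succ k => rw [et, et, ← map_mul, ← map_mul, hp'.ctt j (by omega) k (by omega)]
      · intro j hj k hk hjk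
        cases j with
        | zero =>
          cases k with
          | zero => exact absurd rfl hjk
          | succ k => rw [es0, et]; exact hs0 _
        | succ j =>
          cases k with
          | zero => rw [et0, es]; exact (ht0 _).symm
          | succ k =>
            rw [es, et, ← map_mul, ← map_mul, hp'.cst j (by omega) k (by omega) (by omega)]
    · have e1 : av s t (K + 1) x = ι (av s' t' K b) := by
        rw [av_shift, es0, et0, ← hb]
        exact av_map ι s' t' K b
      have e2 : EZ τ x = ι (EZ σ b) := by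
        rw [hez, hb, ez_ph hE hp]
      rw [e1, e2, ← map_sub, ← hn]
      refine hst'.trans ?_
      have e3 : n2 σ (b - EZ σ b) ^ 2 ≤ (1 / 2) * n2 τ (x - EZ τ x) ^ 2 + δ / 2 := by
        rw [hn, map_sub, hez, hb, ez_ph hE hp]
        exact hst
      rw [← e2]
      have e4 : (0 : ℝ) ≤ (1 / 2) ^ K := by positivity
      have e5 : ((1 : ℝ) / 2) ^ K ≤ 1 := pow_le_one₀ (by norm_num) (by norm_num)
      have e6 : (1 / 2 : ℝ) ^ (K + 1) = (1 / 2) ^ K * (1 / 2) := pow_succ _ _
      rw [e6]
      have e7 := mul_le_mul_of_nonneg_left e3 e4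
      nlinarith

/-- AVG: one element can be averaged to its centre valued trace by a finite system. -/
theorem avg (hHALF : S_HALF) (hREL : S_REL) (hDIX : S_DIX) (h : TW τ) (hA : NoAbA A) (y : A)
    (ε : ℝ) (hε : 0 < ε) :
    ∃ (K : ℕ) (s t : ℕ → A), PauK s t K ∧ n2 τ (av s t K y - EZ τ y) ≤ ε := by
  have hN : 0 ≤ n2 τ (y - EZ τ y) ^ 2 := sq_nonneg _
  obtain ⟨K, hK⟩ := exists_pow_lt_of_lt_one (x := ε ^ 2 / 2 / (n2 τ (y - EZ τ y) ^ 2 + 1))
    (y := (1 / 2 : ℝ)) (by positivity) (by norm_num)
  obtain ⟨s, t, hp, hst⟩ := iter hHALF hREL hDIX K A τ h hA y (ε ^ 2 / 2) (by positivity)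
  refine ⟨K, s, t, hp, ?_⟩
  have h1 : (1 / 2 : ℝ) ^ K * n2 τ (y - EZ τ y) ^ 2 ≤ ε ^ 2 / 2 := by
    have h2 : (1 / 2 : ℝ) ^ K * (n2 τ (y - EZ τ y) ^ 2 + 1) ≤ ε ^ 2 / 2 := by
      have := hK.le
      rwa [le_div_iff₀ (by positivity)] at this
    have h3 : (0 : ℝ) ≤ (1 / 2) ^ K := by positivity
    nlinarith
  have h4 : n2 τ (av s t K y - EZ τ y) ^ 2 ≤ ε ^ 2 := by linarith
  exact (pow_le_pow_iff_left₀ (n2_nonneg _ _) hε.le two_ne_zero).1 h4

end Pool.Agent.H270G.T_AVG
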